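import Pool.Agent.H48.TO.WG

/-! MP_b4e73a_pr, module UB -/

open MeasureTheory

namespace Pool.Agent.H48.TO

open Pool.Agent.H84.TO

theorem kap_nonneg (ℓ : ℕ) : 0 ≤ kap ℓ := by
  unfold kap
  positivity

/-- the bound for the normalising factor -/
theorem sqrt_bound (h1 : T_WG) (ℓ : ℕ) (hl : 2 ≤ ℓ) : ∃ C : ℝ, 0 < C ∧ ∀ j : ℕ,
    Real.sqrt (kap ℓ * wg ℓ j / 2) ≤ C * ((j : ℝ) + 1) ^ (((ℓ : ℝ) - 1) / 2) := by
  refine ⟨Real.sqrt (kap ℓ / 2) * (((ℓ : ℝ) + 1) ^ (((ℓ : ℝ) - 1) / 2)) + 1, by positivity,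
    fun j => ?_⟩
  have hj : (0 : ℝ) ≤ j := Nat.cast_nonneg _
  have hw := (h1 ℓ hl j).2.2
  have e0 : (((ℓ : ℝ) + 1) * (j + 1)) ^ (ℓ - 1) = ((((ℓ : ℝ) + 1) * (j + 1)) ^ ((ℓ : ℝ) - 1)) := by
    rw [← Real.rpow_natCast]
    congr 1
    rw [Nat.cast_sub (by omega)]
    simp
  have e1 : Real.sqrt ((((ℓ : ℝ) + 1) * (j + 1)) ^ ((ℓ : ℝ) - 1))
      = ((ℓ : ℝ) + 1) ^ (((ℓ : ℝ) - 1) / 2) * ((j : ℝ) + 1) ^ (((ℓ : ℝ) - 1) / 2) := by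
    rw [Real.sqrt_eq_rpow, ← Real.rpow_mul (by positivity), Real.mul_rpow (by positivity)
      (by positivity)]
    rw [show ((ℓ : ℝ) - 1) * (1 / 2) = ((ℓ : ℝ) - 1) / 2 by ring]
  have e2 : kap ℓ * wg ℓ j / 2 ≤ (kap ℓ / 2) * (((ℓ : ℝ) + 1) * (j + 1)) ^ ((ℓ : ℝ) - 1) := by
    rw [e0] at hw
    have := mul_le_mul_of_nonneg_left hw (kap_nonneg ℓ)
    linarith
  calc Real.sqrt (kap ℓ * wg ℓ j / 2)
      ≤ Real.sqrt ((kap ℓ / 2) * (((ℓ : ℝ) + 1) * (j + 1)) ^ ((ℓ : ℝ) - 1)) :=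
        Real.sqrt_le_sqrt e2
    _ = Real.sqrt (kap ℓ / 2) * (((ℓ : ℝ) + 1) ^ (((ℓ : ℝ) - 1) / 2)
        * ((j : ℝ) + 1) ^ (((ℓ : ℝ) - 1) / 2)) := by
        have hk := kap_nonneg ℓ
        rw [Real.sqrt_mul (by positivity), e1]
    _ ≤ _ := by
        have : 0 ≤ ((j : ℝ) + 1) ^ (((ℓ : ℝ) - 1) / 2) := by positivity
        nlinarith

theorem ub_proof (h1 : T_WG) (h2 : T_GRM) (h3 : T_BB) : T_UB := by
  intro ℓ hl
  obtain ⟨C1, hC1, hs⟩ := sqrt_bound h1 ℓ hl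
  obtain ⟨C2, hb⟩ := h3 ℓ (by omega)
  have hl0 : (0 : ℝ) ≤ ℓ := Nat.cast_nonneg _
  refine ⟨max (2 * C1 * |C2|) (C1 * 2 ^ ℓ), lt_max_of_lt_right (by positivity), fun j => ?_,
    fun j y => ⟨?_, ?_, ?_⟩⟩
  · have hj : (0 : ℝ) ≤ j := Nat.cast_nonneg _
    rw [((h2 ℓ hl).2.1 j).2.2]
    have hb' : bt (j + 1 / 2) (ℓ / 2) ≤ |C2| * ((j : ℝ) + 1) ^ (-(ℓ : ℝ) / 2) :=
      le_trans (hb j) (mul_le_mul_of_nonneg_right (le_abs_self _) (by positivity))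
    calc Real.sqrt (kap ℓ * wg ℓ j / 2) * (2 * bt (j + 1 / 2) (ℓ / 2))
        ≤ Real.sqrt (kap ℓ * wg ℓ j / 2) * (2 * (|C2| * ((j : ℝ) + 1) ^ (-(ℓ : ℝ) / 2))) :=
          mul_le_mul_of_nonneg_left (by linarith) (Real.sqrt_nonneg _)
      _ ≤ (C1 * ((j : ℝ) + 1) ^ (((ℓ : ℝ) - 1) / 2))
          * (2 * (|C2| * ((j : ℝ) + 1) ^ (-(ℓ : ℝ) / 2))) :=
          mul_le_mul_of_nonneg_right (hs j) (by positivity)
      _ = (2 * C1 * |C2|)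
          * (((j : ℝ) + 1) ^ (((ℓ : ℝ) - 1) / 2) * ((j : ℝ) + 1) ^ (-(ℓ : ℝ) / 2)) := by ring
      _ = (2 * C1 * |C2|) / Real.sqrt (j + 1) := by
          rw [← Real.rpow_add (by positivity), show ((ℓ : ℝ) - 1) / 2 + -(ℓ : ℝ) / 2 = -(1 / 2) by
            ring, Real.rpow_neg (by positivity), ← Real.sqrt_eq_rpow, div_eq_mul_inv]
      _ ≤ _ := by
          apply div_le_div_of_nonneg_right (le_max_left _ _) (Real.sqrt_nonneg _)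
  · unfold uj
    have h0 : 0 ≤ Real.tanh (y / 2) ^ (2 * j) := by
      rw [pow_mul]
      positivity
    have h1 : 0 < Real.cosh (y / 2) := Real.cosh_pos _
    positivity
  · unfold uj
    rw [neg_div, Real.tanh_neg, Real.cosh_neg, Even.neg_pow (even_two_mul j)]
  · have hj : (0 : ℝ) ≤ j := Nat.cast_nonneg _
    unfold uj
    have ht : Real.tanh (y / 2) ^ (2 * j) ≤ 1 := by
      rw [pow_mul]
      apply pow_le_one₀ (by positivity)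
      have h1 := Real.tanh_lt_one (y / 2)
      have h2 := Real.neg_one_lt_tanh (y / 2)
      nlinarith
    have ht0 : 0 ≤ Real.tanh (y / 2) ^ (2 * j) := by
      rw [pow_mul]
      positivity
    have hc : Real.exp (|y| / 2) / 2 ≤ Real.cosh (y / 2) := by
      rw [← Real.cosh_abs, Real.cosh_eq]
      have : |y / 2| = |y| / 2 := by rw [abs_div, abs_of_pos (by norm_num : (0 : ℝ) < 2)]
      rw [this]
      have := Real.exp_pos (-(|y| / 2))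
      linarith
    have hc2 : (Real.cosh (y / 2) ^ ℓ)⁻¹ ≤ 2 ^ ℓ * Real.exp (-(ℓ : ℝ) * |y| / 2) := by
      have h0 : 0 < Real.exp (|y| / 2) / 2 := by positivity
      have h1 : (Real.exp (|y| / 2) / 2) ^ ℓ ≤ Real.cosh (y / 2) ^ ℓ :=
        pow_le_pow_left₀ h0.le hc ℓ
      calc (Real.cosh (y / 2) ^ ℓ)⁻¹ ≤ ((Real.exp (|y| / 2) / 2) ^ ℓ)⁻¹ :=
            inv_anti₀ (by positivity) h1
        _ = _ := by
            rw [div_pow, inv_div, ← Real.exp_nat_mul, div_eq_mul_inv, ← Real.exp_neg]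
            congr 2
            ring
    calc Real.sqrt (kap ℓ * wg ℓ j / 2) * Real.tanh (y / 2) ^ (2 * j) * (Real.cosh (y / 2) ^ ℓ)⁻¹
        ≤ (C1 * ((j : ℝ) + 1) ^ (((ℓ : ℝ) - 1) / 2)) * 1
          * (2 ^ ℓ * Real.exp (-(ℓ : ℝ) * |y| / 2)) := by
          apply mul_le_mul _ hc2 (by positivity) (by positivity)
          exact mul_le_mul (hs j) ht ht0 (by positivity)
      _ = (C1 * 2 ^ ℓ) * (((j : ℝ) + 1) ^ (((ℓ : ℝ) - 1) / 2)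
          * Real.exp (-(ℓ : ℝ) * |y| / 2)) := by ring
      _ ≤ max (2 * C1 * |C2|) (C1 * 2 ^ ℓ) * (((j : ℝ) + 1) ^ (((ℓ : ℝ) - 1) / 2)
          * Real.exp (-(ℓ : ℝ) * |y| / 2)) :=
          mul_le_mul_of_nonneg_right (le_max_right _ _) (by positivity)
      _ = _ := by ring

end Pool.Agent.H48.TO
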