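import Pool.Agent.H84.TO.TargetsT

/-! MP_b4e73a_pr, modules WG, BB, UB (board to_modules of helper84) -/

open MeasureTheory

namespace Pool.Agent.H48.TO

open Pool.Agent.H84.TO

theorem wg_eq (ℓ : ℕ) (hl : 2 ≤ ℓ) (j : ℕ) : wg ℓ j = ((2 * j + 1).ascFactorial (ℓ - 1) : ℝ) := by
  obtain ⟨r, rfl⟩ : ∃ r, ℓ = r + 1 := ⟨ℓ - 1, by omega⟩
  unfold wg
  have h1 : Real.Gamma (2 * (j : ℝ) + ((r + 1 : ℕ) : ℝ)) = ((2 * j + r).factorial : ℝ) := by
    rw [← Real.Gamma_nat_eq_factorial]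
    congr 1
    push_cast
    ring
  have h2 : Real.Gamma (2 * (j : ℝ) + 1) = ((2 * j).factorial : ℝ) := by
    rw [← Real.Gamma_nat_eq_factorial]
    congr 1
    push_cast
    ring
  rw [h1, h2]
  have h3 := Nat.factorial_mul_ascFactorial (2 * j) r
  rw [Nat.add_sub_cancel]
  have h4 : ((2 * j).factorial : ℝ) ≠ 0 := by exact_mod_cast (Nat.factorial_ne_zero _)
  rw [← h3]
  push_cast
  field_simp

theorem wg_proof : T_WG := by
  intro ℓ hl j
  have h := wg_eq ℓ hl j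
  refine ⟨h, ?_, ?_⟩
  · rw [h]
    have : (2 * j + 1) ^ (ℓ - 1) ≤ (2 * j + 1).ascFactorial (ℓ - 1) := Nat.pow_succ_le_ascFactorial _ _
    calc ((j : ℝ) + 1) ^ (ℓ - 1) ≤ ((2 * j + 1 : ℕ) : ℝ) ^ (ℓ - 1) := by
          apply pow_le_pow_left₀ (by positivity)
          push_cast
          have : (0 : ℝ) ≤ j := Nat.cast_nonneg _
          linarith
      _ ≤ _ := by exact_mod_cast this
  · rw [h]
    have key : ∀ r : ℕ, (((2 * j + 1).ascFactorial r : ℕ) : ℝ) ≤ (((r : ℝ) + 2) * (j + 1)) ^ r := by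
      intro r
      induction r with
      | zero => simp
      | succ r ih =>
        rw [Nat.ascFactorial_succ, pow_succ]
        push_cast
        have hj : (0 : ℝ) ≤ j := Nat.cast_nonneg _
        have hr : (0 : ℝ) ≤ r := Nat.cast_nonneg _
        have h1 : (((r : ℝ) + 2) * (j + 1)) ^ r ≤ (((r : ℝ) + 1 + 2) * (j + 1)) ^ r := by
          apply pow_le_pow_left₀ (by positivity)
          nlinarith
        have h2 : (2 * (j : ℝ) + 1 + r) ≤ ((r : ℝ) + 1 + 2) * (j + 1) := by nlinarith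
        calc (2 * (j : ℝ) + 1 + r) * ((2 * j + 1).ascFactorial r : ℝ)
            ≤ (((r : ℝ) + 1 + 2) * (j + 1)) * (((r : ℝ) + 1 + 2) * (j + 1)) ^ r := by
              apply mul_le_mul h2 (le_trans ih h1) (by positivity) (by positivity)
          _ = _ := by ring
    have h1 := key (ℓ - 1)
    have h2 : (((ℓ - 1 : ℕ) : ℝ) + 2) = (ℓ : ℝ) + 1 := by
      rw [Nat.cast_sub (by omega)]
      push_cast
      ring
    rw [h2] at h1
    exact h1

/-- `Γ(x + 1/2) ≥ c √x Γ(x)` for `x ≥ 1/2` -/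
theorem gamma_half (x : ℝ) (hx : 1 / 2 ≤ x) :
    Real.Gamma x * Real.sqrt x ≤ 2 * Real.Gamma (x + 1 / 2) := by
  have hx0 : 0 < x := by linarith
  have h1 := Real.Gamma_mul_add_mul_le_rpow_Gamma_mul_rpow_Gamma (s := x + 1 / 2)
    (t := x + 3 / 2) (a := 1 / 2) (b := 1 / 2) (by linarith) (by linarith) (by norm_num)
    (by norm_num) (by norm_num)
  have e1 : 1 / 2 * (x + 1 / 2) + 1 / 2 * (x + 3 / 2) = x + 1 := by ring
  have e2 : Real.Gamma (x + 3 / 2) = (x + 1 / 2) * Real.Gamma (x + 1 / 2) := by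
    rw [← Real.Gamma_add_one (by linarith)]
    congr 1
    ring
  rw [e1, e2, Real.Gamma_add_one (by linarith)] at h1
  have hG : 0 < Real.Gamma (x + 1 / 2) := Real.Gamma_pos_of_pos (by linarith)
  have hG0 : 0 < Real.Gamma x := Real.Gamma_pos_of_pos hx0
  rw [Real.mul_rpow (by linarith) hG.le] at h1
  have e3 : Real.Gamma (x + 1 / 2) ^ (1 / 2 : ℝ)
      * ((x + 1 / 2) ^ (1 / 2 : ℝ) * Real.Gamma (x + 1 / 2) ^ (1 / 2 : ℝ))
      = Real.sqrt (x + 1 / 2) * Real.Gamma (x + 1 / 2) := by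
    rw [← Real.sqrt_eq_rpow, ← Real.sqrt_eq_rpow]
    have := Real.mul_self_sqrt hG.le
    calc _ = Real.sqrt (x + 1 / 2)
          * (Real.sqrt (Real.Gamma (x + 1 / 2)) * Real.sqrt (Real.Gamma (x + 1 / 2))) := by ring
      _ = _ := by rw [this]
  rw [e3] at h1
  -- x Γ(x) ≤ √(x+1/2) Γ(x+1/2) ≤ 2 √x Γ(x+1/2)
  have h2 : Real.sqrt (x + 1 / 2) ≤ 2 * Real.sqrt x := by
    rw [show (2 : ℝ) * Real.sqrt x = Real.sqrt (4 * x) by
      rw [Real.sqrt_mul (by norm_num), show (4 : ℝ) = 2 ^ 2 by norm_num,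
        Real.sqrt_sq (by norm_num)]]
    apply Real.sqrt_le_sqrt
    linarith
  have h3 : x * Real.Gamma x ≤ 2 * Real.sqrt x * Real.Gamma (x + 1 / 2) :=
    le_trans h1 (mul_le_mul_of_nonneg_right h2 hG.le)
  have hs : 0 < Real.sqrt x := Real.sqrt_pos.2 hx0
  have h4 : x = Real.sqrt x * Real.sqrt x := (Real.mul_self_sqrt hx0.le).symm
  have h5 : Real.sqrt x * (Real.Gamma x * Real.sqrt x)
      ≤ Real.sqrt x * (2 * Real.Gamma (x + 1 / 2)) := by
    calc Real.sqrt x * (Real.Gamma x * Real.sqrt x)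
        = (Real.sqrt x * Real.sqrt x) * Real.Gamma x := by ring
      _ = x * Real.Gamma x := by rw [← h4]
      _ ≤ _ := h3
      _ = _ := by ring
  exact le_of_mul_le_mul_left h5 hs

/-- integer steps -/
theorem gamma_nat (x : ℝ) (hx : 0 < x) (r : ℕ) :
    Real.Gamma x * x ^ r ≤ Real.Gamma (x + r) := by
  induction r with
  | zero => simp
  | succ r ih =>
    have e : x + ((r + 1 : ℕ) : ℝ) = (x + r) + 1 := by
      push_cast
      ring
    have hr : (0 : ℝ) ≤ r := Nat.cast_nonneg _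
    rw [e, Real.Gamma_add_one (by positivity), pow_succ]
    have hG0 : 0 < Real.Gamma x := Real.Gamma_pos_of_pos hx
    calc Real.Gamma x * (x ^ r * x) = x * (Real.Gamma x * x ^ r) := by ring
      _ ≤ (x + r) * Real.Gamma (x + r) := by
        apply mul_le_mul (by linarith) ih (by positivity) (by linarith)

theorem bb_proof : T_BB := by
  intro ℓ hl
  -- Γ(x) x^(l/2) ≤ 2 Γ(x + l/2)
  have key : ∀ x : ℝ, 1 / 2 ≤ x → Real.Gamma x * x ^ ((ℓ : ℝ) / 2) ≤ 2 * Real.Gamma (x + ℓ / 2) := by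
    intro x hx
    have hx0 : 0 < x := by linarith
    rcases Nat.even_or_odd' ℓ with ⟨r, hr | hr⟩
    · have e : (ℓ : ℝ) / 2 = r := by
        rw [hr]
        push_cast
        ring
      rw [e, Real.rpow_natCast]
      have h1 := gamma_nat x hx0 r
      have h2 : 0 < Real.Gamma (x + r) := Real.Gamma_pos_of_pos (by positivity)
      linarith
    · have e : (ℓ : ℝ) / 2 = r + 1 / 2 := by
        rw [hr]
        push_cast
        ring
      rw [e, Real.rpow_add hx0, Real.rpow_natCast, ← Real.sqrt_eq_rpow]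
      have h1 := gamma_nat x hx0 r
      have h2 := gamma_half (x + r) (by
        have : (0 : ℝ) ≤ r := Nat.cast_nonneg _
        linarith)
      have e2 : x + ((r : ℝ) + 1 / 2) = x + r + 1 / 2 := by ring
      rw [e2]
      refine le_trans ?_ h2
      have h3 : Real.sqrt x ≤ Real.sqrt (x + r) := by
        apply Real.sqrt_le_sqrt
        have : (0 : ℝ) ≤ r := Nat.cast_nonneg _
        linarith
      calc Real.Gamma x * (x ^ r * Real.sqrt x) = (Real.Gamma x * x ^ r) * Real.sqrt x := by ring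
        _ ≤ Real.Gamma (x + r) * Real.sqrt (x + r) := by
          apply mul_le_mul h1 h3 (Real.sqrt_nonneg _)
          exact (Real.Gamma_pos_of_pos (by positivity)).le
  refine ⟨Real.Gamma (ℓ / 2) * (2 * 2 ^ ((ℓ : ℝ) / 2)), fun j => ?_⟩
  have hj : (0 : ℝ) ≤ j := Nat.cast_nonneg _
  have hx : (1 : ℝ) / 2 ≤ j + 1 / 2 := by linarith
  have hx0 : (0 : ℝ) < j + 1 / 2 := by linarith
  have h1 := key (j + 1 / 2) hx
  have hl0 : (0 : ℝ) < ℓ := by exact_mod_cast (by omega : 0 < ℓ)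
  have hG : 0 < Real.Gamma ((j : ℝ) + 1 / 2 + ℓ / 2) := Real.Gamma_pos_of_pos (by positivity)
  have hGl : 0 < Real.Gamma ((ℓ : ℝ) / 2) := Real.Gamma_pos_of_pos (by positivity)
  have h2 : ((j : ℝ) + 1) ^ ((ℓ : ℝ) / 2) ≤ 2 ^ ((ℓ : ℝ) / 2) * ((j : ℝ) + 1 / 2) ^ ((ℓ : ℝ) / 2) := by
    rw [← Real.mul_rpow (by norm_num) (by positivity)]
    apply Real.rpow_le_rpow (by positivity) (by linarith) (by positivity)
  have e1 : ((j : ℝ) + 1) ^ (-(ℓ : ℝ) / 2) = (((j : ℝ) + 1) ^ ((ℓ : ℝ) / 2))⁻¹ := by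
    rw [neg_div, Real.rpow_neg (by positivity)]
  unfold bt
  rw [e1, div_le_iff₀ hG]
  have hp : 0 < ((j : ℝ) + 1) ^ ((ℓ : ℝ) / 2) := by positivity
  rw [mul_assoc, mul_assoc, mul_comm (Real.Gamma ((j : ℝ) + 1 / 2)) (Real.Gamma _)]
  apply mul_le_mul_of_nonneg_left _ hGl.le
  have h0 : 0 < Real.Gamma ((j : ℝ) + 1 / 2) := Real.Gamma_pos_of_pos hx0
  rw [← mul_assoc, inv_eq_one_div, mul_one_div, ← sub_nonneg]
  have h3 : Real.Gamma ((j : ℝ) + 1 / 2) * ((j : ℝ) + 1) ^ ((ℓ : ℝ) / 2)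
      ≤ 2 * 2 ^ ((ℓ : ℝ) / 2) * Real.Gamma ((j : ℝ) + 1 / 2 + ℓ / 2) := by
    calc Real.Gamma ((j : ℝ) + 1 / 2) * ((j : ℝ) + 1) ^ ((ℓ : ℝ) / 2)
        ≤ Real.Gamma ((j : ℝ) + 1 / 2) * (2 ^ ((ℓ : ℝ) / 2) * ((j : ℝ) + 1 / 2) ^ ((ℓ : ℝ) / 2)) :=
          mul_le_mul_of_nonneg_left h2 h0.le
      _ = 2 ^ ((ℓ : ℝ) / 2)
          * (Real.Gamma ((j : ℝ) + 1 / 2) * ((j : ℝ) + 1 / 2) ^ ((ℓ : ℝ) / 2)) := by ring
      _ ≤ 2 ^ ((ℓ : ℝ) / 2) * (2 * Real.Gamma ((j : ℝ) + 1 / 2 + ℓ / 2)) :=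
          mul_le_mul_of_nonneg_left h1 (by positivity)
      _ = _ := by ring
  rw [sub_nonneg, div_mul_eq_mul_div, le_div_iff₀ hp]
  exact h3

end Pool.Agent.H48.TO
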